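import Pool.Agent.NH15.DL.D8
import Pool.Agent.Y957.VK.Fin3
import Pool.Agent.Y957.VK.E1

/-!
# Intervals of polylogarithmic length at almost every sequence of real dilates of an arbitrary set

Let `x 0, x 1, ...` be independent random real numbers with bounded densities on `[1 / R, R]`, and for every
`N = 2 ^ m` let `A` be an arbitrary set of real numbers in `[N, 2 N)` with at most `log ^ C N` members in every unit interval.
Almost surely, for all large `m` the following holds for all `k ≤ log ^ C N`: the number of the primes in the `k` intervals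
`(x i t, (1 + h) x i t]`, `i < k`, `log ^ K N / N ≤ h ≤ 1`, is as expected for all the `t ∈ A`, with a proportion of
exceptions which decreases exponentially in `k`; for `k ≥ κ log log N` it is `log ^ (-C) N`, for all the `h` at once.

From the starting files: the bound `N / log ^ K N` for the sums of `(Λ(n) - 1) n ^ (i τ)`, `|τ| ≤ N ^ A` (Vinogradov and
Korobov), and the Plancherel step (`Pool.Agent.Y957.VK`); Selberg's upper bound sieve on the average over short intervals
(`Pool.Agent.W301.SS`). New (`Pool.Agent.NH15.CT`, `Pool.Agent.NH15.DL`): the mean square over the dilations of the sums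
over an arbitrary set with arbitrary weights, its use with the exponential weights which belong to the earlier dilations,
and the theorem.
-/

set_option autoImplicit false

namespace Pool.Agent.Results.MP_711652_nt.AlmostEveryDilations

open Finset MeasureTheory Filter ProbabilityTheory

/-- The number of the primes in the interval `(x, (1 + h) x]`. -/
noncomputable def primesIn (h x : ℝ) : ℕ := ((Ioc ⌊x⌋₊ ⌊(1 + h) * x⌋₊).filter Nat.Prime).card

/-- The sum over `i < k` of the number of the primes in the interval `(x i t, (1 + h) x i t]` divided by the expected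
number `h x i t / log N`. -/
noncomputable def total (N k : ℕ) (x : ℕ → ℝ) (h t : ℝ) : ℝ :=
  ∑ i ∈ range k, (primesIn h (x i * t) : ℝ) * Real.log N / (h * (x i * t))

open Classical in
/-- The number of the elements of `A` with the property `E`. -/
noncomputable def numIn (A : Finset ℝ) (E : ℝ → Prop) : ℝ := ((A.filter E).card : ℝ)

/-- The sequence `x` of dilations is good for the set `A ⊆ [N, 2 N)`, for all `k ≤ log ^ C N`:

* For every real `h` with `log ^ K N / N ≤ h ≤ 1` the sum over `i < k` of the numbers of the primes in the intervals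
  `(x i t, (1 + h) x i t]`, each divided by its expected value, is between `(1 - ε) k` and `(1 + ε) k` for all
  the `t ∈ A` with at most `4 exp (- ε² k / 100) |A| + N / log ^ C N` exceptions; and none of the `k`
  intervals contains a prime for at most `(3 / 4 + ε) ^ k |A| + N / log ^ C N` of the `t ∈ A`.
* If `k ≥ κ log log N`, then for all the `t ∈ A` with at most `N / log ^ C N` exceptions the approximation holds
  for all these `h` simultaneously. -/
def Good (ε : ℝ) (C κ K N : ℕ) (A : Finset ℝ) (x : ℕ → ℝ) : Prop :=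
  ∀ k : ℕ, (k : ℝ) ≤ Real.log N ^ C →
    (∀ h : ℝ, Real.log N ^ K / N ≤ h → h ≤ 1 →
      numIn A (fun t => ε * k < |total N k x h t - k|) ≤
        4 * Real.exp (-(ε ^ 2 * k / 100)) * A.card + N / Real.log N ^ C ∧
      numIn A (fun t => ∀ i < k, primesIn h (x i * t) = 0) ≤
        (3 / 4 + ε) ^ k * A.card + N / Real.log N ^ C) ∧
    (κ * Real.log (Real.log N) ≤ k →
      numIn A (fun t => ¬ ∀ h : ℝ, Real.log N ^ K / N ≤ h → h ≤ 1 → |total N k x h t - k| ≤ ε * k) ≤
        N / Real.log N ^ C)

lemma enum (A : Finset ℝ) : ∃ lam : ℕ → ℝ, Set.InjOn lam (range A.card) ∧ (range A.card).image lam = A := by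
  classical
  refine ⟨fun n => if h : n < A.card then ((A.equivFin.symm ⟨n, h⟩ : A) : ℝ) else 0, ?_, ?_⟩
  · intro a ha b hb hab
    rw [coe_range, Set.mem_Iio] at ha hb
    simp only at hab
    rw [dif_pos ha, dif_pos hb] at hab
    have h1 := A.equivFin.symm.injective (Subtype.ext hab)
    exact congrArg Fin.val h1
  · ext t
    rw [mem_image]
    constructor
    · rintro ⟨n, hn, rfl⟩
      rw [mem_range] at hn
      rw [dif_pos hn]
      exact (A.equivFin.symm ⟨n, hn⟩).2
    · intro ht
      refine ⟨A.equivFin ⟨t, ht⟩, mem_range.2 (A.equivFin ⟨t, ht⟩).2, ?_⟩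
      rw [dif_pos (A.equivFin ⟨t, ht⟩).2]
      simp

lemma card_enum (A : Finset ℝ) (lam : ℕ → ℝ) (h1 : Set.InjOn lam (range A.card)) (h2 : (range A.card).image lam = A)
    (E : ℝ → Prop) [DecidablePred E] [DecidablePred fun n => E (lam n)] :
    (A.filter E).card = ((range A.card).filter (fun n => E (lam n))).card := by
  classical
  have h3 : A.filter E = ((range A.card).filter (fun n => E (lam n))).image lam := by
    ext t
    rw [mem_filter, mem_image]
    constructor
    · rintro ⟨ht, hE⟩
      rw [← h2, mem_image] at ht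
      obtain ⟨n, hn, rfl⟩ := ht
      exact ⟨n, mem_filter.2 ⟨hn, hE⟩, rfl⟩
    · rintro ⟨n, hn, rfl⟩
      rw [mem_filter] at hn
      refine ⟨?_, hn.2⟩
      have : lam n ∈ (range A.card).image lam := mem_image_of_mem _ hn.1
      rwa [h2] at this
  rw [h3, card_image_of_injOn]
  exact h1.mono (by
    intro n hn
    rw [mem_coe, mem_filter] at hn
    exact hn.1)

/-- Let `R ≥ 1`, `C` and `0 < ε ≤ 1 / 4` be fixed. There are `K` and `κ` with the following property. Let
`X 0, X 1, ...` be independent real random variables whose laws have densities which are bounded by a common constant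
and vanish outside of `[1 / R, R]`, and for every `m` let `A m` be a finite set of real numbers in `[2 ^ m, 2 ^ (m + 1))`
which, if `m` is large, has at most `(log 2 ^ m) ^ C` elements in every interval `[t, t + 1)`. Almost surely
the sequence `X 0, X 1, ...` is good for the set `A m` for all sufficiently large `m`. -/
theorem result (R C : ℕ) (ε : ℝ) (hR : 1 ≤ R) (hε : 0 < ε) (hε1 : ε ≤ 1 / 4) :
    ∃ κ K : ℕ, ∀ (Ω : Type) [MeasurableSpace Ω] (P : Measure Ω) [IsProbabilityMeasure P] (X : ℕ → Ω → ℝ),
      (∀ i, Measurable (X i)) → iIndepFun X P →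
      (∃ d : ℝ, ∀ i, P.map (X i) ≤ ENNReal.ofReal d • (volume.restrict (Set.Icc (1 / (R : ℝ)) R))) →
      ∀ A : ℕ → Finset ℝ, (∀ m, ∀ t ∈ A m, (2 : ℝ) ^ m ≤ t ∧ t < 2 ^ (m + 1)) →
      (∀ᶠ m : ℕ in atTop, ∀ t : ℝ, numIn (A m) (fun a => t ≤ a ∧ a < t + 1) ≤ Real.log (2 ^ m) ^ C) →
      ∀ᵐ ω ∂P, ∀ᶠ m : ℕ in atTop, Good ε C κ K (2 ^ m) (A m) (fun i => X i ω) := by
  classical
  obtain ⟨hb, -, hneg⟩ := Pool.Agent.Y957.VK.lw_all
  obtain ⟨κ, K, h0⟩ := Pool.Agent.NH15.DL.almost hneg hb Pool.Agent.Y957.VK.planch R C ε hR hε hε1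
  refine ⟨κ, K, ?_⟩
  rintro Ω _ P _ X hXm hXi ⟨d, hXd⟩ A hA hthin
  choose lam hlam1 hlam2 using fun m => enum (A m)
  have hmem : ∀ m, ∀ n ∈ range (A m).card, lam m n ∈ A m := by
    intro m n hn
    have : lam m n ∈ (range (A m).card).image (lam m) := mem_image_of_mem _ hn
    rwa [hlam2 m] at this
  have hL1 : ∀ᶠ m : ℕ in atTop, 1 ≤ Real.log ((2 ^ m : ℕ) : ℝ) := by
    have ht : Tendsto (fun m : ℕ => 2 ^ m) atTop atTop := tendsto_pow_atTop_atTop_of_one_lt (by norm_num)
    exact ht.eventually (Pool.Agent.W301.SS.ev_L 1)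
  have key := h0 Ω P X hXm hXi d hXd (fun m => range (A m).card) lam (fun m => Real.log ((2 ^ m : ℕ) : ℝ) ^ C) (by
    filter_upwards [hthin, hL1] with m h1 h2
    refine ⟨⟨Nat.one_le_two_pow, one_le_pow₀ h2, ?_, ?_, ?_⟩, le_rfl⟩
    · intro t
      have h3 := h1 t
      unfold numIn at h3
      rw [card_enum (A m) (lam m) (hlam1 m) (hlam2 m)] at h3
      push_cast
      exact h3
    · intro n hn
      push_cast
      exact (hA m _ (hmem m n hn)).1
    · intro n hn
      push_cast
      have := (hA m _ (hmem m n hn)).2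
      rw [pow_succ] at this
      linarith)
  filter_upwards [key] with ω h1
  filter_upwards [h1] with m h2
  intro k hk
  obtain ⟨h3, h4⟩ := h2 k hk
  have hSS : ∀ h t, total (2 ^ m) k (fun i => X i ω) h t = Pool.Agent.NH15.DL.SS (2 ^ m) k (fun i => X i ω) h t :=
    fun h t => rfl
  refine ⟨fun h hh1 hh2 => ?_, fun hκ => ?_⟩
  · obtain ⟨h5, h6⟩ := h3 h hh1 hh2
    rw [card_range] at h5 h6
    constructor
    · unfold numIn
      rw [card_enum (A m) (lam m) (hlam1 m) (hlam2 m)]
      exact h5
    · unfold numIn
      rw [card_enum (A m) (lam m) (hlam1 m) (hlam2 m)]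
      exact h6
  · unfold numIn
    rw [card_enum (A m) (lam m) (hlam1 m) (hlam2 m)]
    exact h4 hκ

end Pool.Agent.Results.MP_711652_nt.AlmostEveryDilations
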