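import Pool.Agent.NH15.SD.S8

/-!
# Cramér's conjecture for the union of `k` dilates of the primes

Cramér's heuristic predicts `log ^ 2 N` for the largest gap of the primes near `N`, and `log ^ 2 N / (μ k)` for the largest gap
of the union of `k` dilates of the set of the primes with the density `μ k / log N`. Here this is proved, with
the constant `1` and simultaneously at all scales, for almost every sequence of dilations, if
`(log N) ^ (1 + δ) ≤ k ≤ (log N) ^ A`; and the gaps are `O(log ^ 2 N / k)` for all `k ≥ C log N`.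

From the starting files: the prime number theorem (`Pool.Agent.W301.SS`) and the upper bound sieve for tuples
(`Pool.Agent.H646`). New (`Pool.Agent.NH15.SD`): the rest.
-/

set_option autoImplicit false

namespace Pool.Agent.Results.MP_711652_nt.CramerForUnionsOfDilates

open MeasureTheory ProbabilityTheory Filter

/-- The union of the `k` dilates `(1 / x i) P`, `i < k`, of the set `P` of the primes. -/
def dilates (k : ℕ) (x : ℕ → ℝ) : Set ℝ := {u | ∃ i < k, ∃ p : ℕ, p.Prime ∧ u = p / x i}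

/-- No gap of `U` near `[N, 2 N]` is longer than `s`: for every real `t` in `[N, 2 N]` the interval `(t, t + s]` contains
an element of `U`. -/
def GapsAtMost (U : Set ℝ) (N s : ℝ) : Prop := ∀ t : ℝ, N ≤ t → t ≤ 2 * N → ∃ u ∈ U, t < u ∧ u ≤ t + s

/-- `U` has a gap of a length of at least `s` in `[N, 2 N]`: some interval `(t, t + s]` in `[N, 2 N]` contains no
element of `U`. -/
def HasGap (U : Set ℝ) (N s : ℝ) : Prop := ∃ t : ℝ, N ≤ t ∧ t + s ≤ 2 * N ∧ ∀ u ∈ U, ¬ (t < u ∧ u ≤ t + s)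

/-- The properties of the sequence `x` at the scale `N`, for the union of its first `k` dilates of the primes
(with `μ = (a + b) / 2`).
* If `k ≥ C log N`, then the gaps in `[N, 2 N]` are at most `C log ^ 2 N / k`.
* If `k ≥ (log N) ^ (1 + δ)`, then they are at most `(1 + ε) log ^ 2 N / (μ k)`, and there is a gap of the
  length `(1 - ε) log ^ 2 N / (μ k)`. -/
def Good (a b C ε δ N : ℝ) (k : ℕ) (x : ℕ → ℝ) : Prop :=
  (C * Real.log N ≤ k → GapsAtMost (dilates k x) N (C * Real.log N ^ 2 / k)) ∧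
  (Real.log N ^ (1 + δ) ≤ k →
    GapsAtMost (dilates k x) N ((1 + ε) * (Real.log N ^ 2 / ((a + b) / 2 * k))) ∧
    HasGap (dilates k x) N ((1 - ε) * (Real.log N ^ 2 / ((a + b) / 2 * k))))

lemma gaps_of (N k : ℕ) (hN : 1 ≤ N) (s : ℝ) (hs : 0 ≤ s) (x : ℕ → ℝ) (h : NH15.SD.AllHit N k s x) :
    GapsAtMost (dilates k x) N s := by
  intro t ht1 ht2
  obtain ⟨i, hi, p, hp, h1, h2⟩ := h t ht1 ht2
  have hN0 : (0 : ℝ) < N := by exact_mod_cast hN
  have hx : 0 < x i := by
    by_contra hcon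
    rw [not_lt] at hcon
    have h4 : x i * (t + s) ≤ 0 := mul_nonpos_of_nonpos_of_nonneg hcon (by linarith)
    have h5 : (0 : ℝ) < p := by exact_mod_cast hp.pos
    linarith
  refine ⟨p / x i, ⟨i, hi, p, hp, rfl⟩, ?_, ?_⟩
  · rw [lt_div_iff₀ hx]
    linarith
  · rw [div_le_iff₀ hx]
    linarith

lemma gap_of (N k : ℕ) (hN : 1 ≤ N) (s : ℝ) (x : ℕ → ℝ) (h : NH15.SD.Missed N k s x) :
    HasGap (dilates k x) N s := by
  obtain ⟨t, ht1, ht2, h⟩ := h
  refine ⟨t, ht1, ht2, ?_⟩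
  rintro u ⟨i, hi, p, hp, rfl⟩ ⟨h1, h2⟩
  have hN0 : (0 : ℝ) < N := by exact_mod_cast hN
  have h5 : (0 : ℝ) < p := by exact_mod_cast hp.pos
  have hx : 0 < x i := by
    by_contra hcon
    rw [not_lt] at hcon
    have := div_nonpos_of_nonneg_of_nonpos h5.le hcon
    linarith
  apply h i hi
  rw [lt_div_iff₀ hx] at h1
  rw [div_le_iff₀ hx] at h2
  exact ⟨p, hp, by linarith, by linarith⟩

/-- Let `0 < a < b`. There is a `C` with the following property. Let `X 0, X 1, ...` be independent random real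
numbers which are uniformly distributed on `[a, b]`. Almost surely the following holds for all
`0 < ε < 1`, `δ > 0` and `A` and all sufficiently large `m`, for `N = 2 ^ m` and all integers `k ≤ (log N) ^ A`:
the union of the first `k` dilates of the primes has no gap in `[N, 2 N]` longer than `C log ^ 2 N / k` if
`k ≥ C log N`; and its largest gap in `[N, 2 N]` is between `1 - ε` and `1 + ε` times
`log ^ 2 N / (μ k)`, `μ = (a + b) / 2`, if `k ≥ (log N) ^ (1 + δ)`. In particular there is a sequence with this property. -/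
theorem result (a b : ℝ) (ha : 0 < a) (hab : a < b) : ∃ C : ℝ, 0 < C ∧
    (∀ (Ω : Type) [MeasurableSpace Ω] (P : Measure Ω) [IsProbabilityMeasure P] (X : ℕ → Ω → ℝ),
      (∀ i, Measurable (X i)) → iIndepFun X P → (∀ i, pdf.IsUniform (X i) (Set.Icc a b) P volume) →
      ∀ᵐ ω ∂P, ∀ ε δ : ℝ, 0 < ε → ε < 1 → 0 < δ → ∀ A : ℕ, ∀ᶠ m : ℕ in atTop, ∀ k : ℕ,
        (k : ℝ) ≤ Real.log (2 ^ m) ^ A → Good a b C ε δ (2 ^ m) k (fun i => X i ω)) ∧
    (∃ x : ℕ → ℝ, (∀ i, a ≤ x i ∧ x i ≤ b) ∧ ∀ ε δ : ℝ, 0 < ε → ε < 1 → 0 < δ → ∀ A : ℕ, ∀ᶠ m : ℕ in atTop, ∀ k : ℕ,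
        (k : ℝ) ≤ Real.log (2 ^ m) ^ A → Good a b C ε δ (2 ^ m) k x) := by
  obtain ⟨C, hC, h⟩ := NH15.SD.almost a b ha hab
  have main : ∀ (Ω : Type) [MeasurableSpace Ω] (P : Measure Ω) [IsProbabilityMeasure P] (X : ℕ → Ω → ℝ),
      (∀ i, Measurable (X i)) → iIndepFun X P → (∀ i, pdf.IsUniform (X i) (Set.Icc a b) P volume) →
      ∀ᵐ ω ∂P, ∀ ε δ : ℝ, 0 < ε → ε < 1 → 0 < δ → ∀ A : ℕ, ∀ᶠ m : ℕ in atTop, ∀ k : ℕ,
        (k : ℝ) ≤ Real.log (2 ^ m) ^ A → Good a b C ε δ (2 ^ m) k (fun i => X i ω) := by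
    intro Ω _ P _ X hXm hXi hX
    filter_upwards [h Ω P X hXm hXi hX] with ω h1 ε δ hε hε1 hδ A
    filter_upwards [h1 ε δ hε hε1 hδ A] with m h2 k hk
    have e : (((2 ^ m : ℕ) : ℕ) : ℝ) = (2 : ℝ) ^ m := by push_cast; rfl
    obtain ⟨g1, g2⟩ := h2 k (by rw [e]; exact hk)
    have hm1 : 1 ≤ 2 ^ m := Nat.one_le_two_pow
    have hb : 0 < b := ha.trans hab
    refine ⟨fun hc => ?_, fun hc => ?_⟩
    · have g3 := gaps_of (2 ^ m) k hm1 _ (by positivity) _ (g1 (by rw [e]; exact hc))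
      rw [e] at g3
      exact g3
    · obtain ⟨g3, g4⟩ := g2 (by rw [e]; exact hc)
      have g5 := gaps_of (2 ^ m) k hm1 _ (by positivity) _ g3
      have g6 := gap_of (2 ^ m) k hm1 _ _ g4
      rw [e] at g5 g6
      exact ⟨g5, g6⟩
  refine ⟨C, hC, main, ?_⟩
  have hpr := NH15.SD.nu_prob hab
  have h1 := main (ℕ → ℝ) (Measure.infinitePi fun _ : ℕ => NH15.SD.nu a b) (fun i x => x i)
    (fun i => measurable_pi_apply i) (iIndepFun_infinitePi (X := fun _ ω => ω) (by fun_prop)) (fun i => by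
      unfold pdf.IsUniform
      exact Measure.infinitePi_map_eval (fun _ : ℕ => NH15.SD.nu a b) i)
  have h2 : ∀ᵐ x : ℕ → ℝ ∂(Measure.infinitePi fun _ : ℕ => NH15.SD.nu a b), ∀ i, a ≤ x i ∧ x i ≤ b := by
    rw [ae_all_iff]
    intro i
    have h3 : (Measure.infinitePi fun _ : ℕ => NH15.SD.nu a b).map (fun x => x i) (Set.Icc a b)ᶜ = 0 := by
      rw [Measure.infinitePi_map_eval (fun _ : ℕ => NH15.SD.nu a b) i, NH15.SD.nu_apply, Set.inter_compl_self,
        measure_empty, mul_zero]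
    rw [Measure.map_apply (measurable_pi_apply i) measurableSet_Icc.compl] at h3
    rw [ae_iff]
    exact h3
  obtain ⟨x, hx1, hx2⟩ := (h1.and h2).exists
  exact ⟨x, hx2, hx1⟩

end Pool.Agent.Results.MP_711652_nt.CramerForUnionsOfDilates
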