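import Pool.Agent.NH15.CT.W6
import Pool.Agent.TH823.Fam.Fam2

/-!
# The union of `O(log log N)` generic thin translates of the primes is regular in intervals of polylogarithmic length

For almost all the `k`-tuples of members `b 1, ..., b k` of a thin family (squares, values of a polynomial, ...) the
number of the primes in the `k` intervals `(n + b i, n + b i + y]`, `y ≥ (log N) ^ K`, is as expected for all the `n ≤ N`,
with a proportion of exceptions which decreases exponentially in `k`; for `k ≥ κ log log N` it is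
`(log N) ^ (-C)`, for all the `y` at once.

From the starting files: the Vinogradov bound at all points of the circle with the kernel of a short interval, Selberg's
upper bound sieve on the average over short intervals (`Pool.Agent.W301.SS`, `Pool.Agent.TH646.TT`), the bilinear inequality
for families of nearly minimal additive energy (`Pool.Agent.H373R2.T7`, `Pool.Agent.TH935.LF`) and the moments of Weyl sums
(`Pool.Agent.TH823.Fam`). New (`Pool.Agent.NH15.CT`): the bilinear inequality is applied with the exponential weights which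
belong to the earlier members of the tuple.
From Mathlib: `Polynomial ℤ`: the polynomials with integer coefficients; `f.eval m`: the value at `m`;
`(s m).toNat`: the integer `s m` (if it is not negative) as a natural number.
-/

set_option autoImplicit false

namespace Pool.Agent.Results.MP_711652_nt.FewGenericTranslates

open Finset

/-- The additive energy of order `p` of the family `s 1, ..., s x`: the number of the solutions of
`s (v 1) + ... + s (v p) = s (w 1) + ... + s (w p)` with all `v i`, `w i` in `{1, ..., x}`. -/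
def energy (p x : ℕ) (s : ℕ → ℤ) : ℕ :=
  (((Fintype.piFinset fun _ : Fin p => Icc 1 x) ×ˢ (Fintype.piFinset fun _ : Fin p => Icc 1 x)).filter
    (fun q => ∑ i, s (q.1 i) = ∑ i, s (q.2 i))).card

open Classical in
/-- The number of the `k`-tuples `(m 0, ..., m (k - 1))` of numbers in `{1, ..., x}` with the property `E`. -/
noncomputable def numT (x k : ℕ) (E : (Fin k → ℕ) → Prop) : ℝ :=
  (((Fintype.piFinset fun _ : Fin k => Icc 1 x).filter E).card : ℝ)

open Classical in
/-- The number of the elements of `A` with the property `E`. -/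
noncomputable def numIn (A : Finset ℕ) (E : ℕ → Prop) : ℝ := ((A.filter E).card : ℝ)

/-- The number of the primes in the `k` intervals `(n + b i, n + b i + y]`, each interval counted for itself. -/
def primesIn {k : ℕ} (b : Fin k → ℕ) (n y : ℕ) : ℕ :=
  ∑ i, ((Ioc (n + b i) (n + b i + y)).filter Nat.Prime).card

/-- The `k`-tuple `b` of shifts is good for the set `A ⊆ [1, N]`:

* For every integer `y` with `(log N) ^ K ≤ y ≤ N`, the number of the primes in the `k` intervals
  `(n + b i, n + b i + y]` differs from `k y / log N` by at most `ε k y / log N` for all the `n ∈ A` with at most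
  `4 exp (- ε² k / 100) |A| + N / log ^ C N` exceptions; and it is `0` for at most
  `(3 / 4 + ε) ^ k |A| + N / log ^ C N` of the `n ∈ A`.
* If `k ≥ κ log log N`, then for all the `n ∈ A` with at most `N / log ^ C N` exceptions the first approximation
  holds for all the integers `y` with `(log N) ^ K ≤ y ≤ N` simultaneously. -/
def Good (ε : ℝ) (C κ K N : ℕ) (A : Finset ℕ) {k : ℕ} (b : Fin k → ℕ) : Prop :=
  (∀ y : ℕ, Real.log N ^ K ≤ y → y ≤ N →
    numIn A (fun n => ε * (k * y) < |(primesIn b n y : ℝ) * Real.log N - k * y|) ≤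
      4 * Real.exp (-(ε ^ 2 * k / 100)) * A.card + N / Real.log N ^ C ∧
    numIn A (fun n => primesIn b n y = 0) ≤ (3 / 4 + ε) ^ k * A.card + N / Real.log N ^ C) ∧
  (κ * Real.log (Real.log N) ≤ k →
    numIn A (fun n => ¬ ∀ y : ℕ, Real.log N ^ K ≤ y → y ≤ N →
      |(primesIn b n y : ℝ) * Real.log N - k * y| ≤ ε * (k * y)) ≤ N / Real.log N ^ C)

lemma numT_mono {x k : ℕ} {E F : (Fin k → ℕ) → Prop} (h : ∀ m ∈ Fintype.piFinset fun _ : Fin k => Icc 1 x, E m → F m) :
    numT x k E ≤ numT x k F := by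
  classical
  unfold numT
  apply Nat.cast_le.2
  apply card_le_card
  intro m hm
  rw [mem_filter] at hm ⊢
  exact ⟨hm.1, h m hm.1 hm.2⟩

lemma numT_le {x k : ℕ} {E : (Fin k → ℕ) → Prop} {V : ℝ}
    (h : ∀ S : Finset (Fin k → ℕ), S ⊆ Fintype.piFinset (fun _ : Fin k => Icc 1 x) → (∀ m ∈ S, E m) →
      (S.card : ℝ) ≤ V) : numT x k E ≤ V := by
  classical
  unfold numT
  apply h _ (filter_subset _ _)
  intro m hm
  rw [mem_filter] at hm
  exact hm.2

lemma numIn_mono {A : Finset ℕ} {E F : ℕ → Prop} (h : ∀ m ∈ A, E m → F m) : numIn A E ≤ numIn A F := by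
  classical
  unfold numIn
  apply Nat.cast_le.2
  apply card_le_card
  intro m hm
  rw [mem_filter] at hm ⊢
  exact ⟨hm.1, h m hm.1 hm.2⟩

lemma numIn_le {A : Finset ℕ} {E F : ℕ → Prop} [DecidablePred F] (h : ∀ m ∈ A, E m → F m) :
    numIn A E ≤ ((A.filter F).card : ℝ) := by
  classical
  unfold numIn
  apply Nat.cast_le.2
  apply card_le_card
  intro m hm
  rw [mem_filter] at hm ⊢
  exact ⟨hm.1, h m hm.1 hm.2⟩

lemma tot_eq (k : ℕ) (s : ℕ → ℤ) (m : Fin k → ℕ) (n y : ℕ) :
    (primesIn (fun i => (s (m i)).toNat) n y : ℝ) =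
      Pool.Agent.NH15.CT.tot k (Pool.Agent.NH15.CT.sh s k m) y n := by
  unfold primesIn Pool.Agent.NH15.CT.tot
  rw [← Fin.sum_univ_eq_sum_range (fun i => (Pool.Agent.W301.SS.pn (n + Pool.Agent.NH15.CT.sh s k m i) y : ℝ)) k]
  push_cast
  apply sum_congr rfl
  intro i _
  unfold Pool.Agent.NH15.CT.sh Pool.Agent.W301.SS.pn
  rw [dif_pos i.2]

lemma zero_iff (k : ℕ) (s : ℕ → ℤ) (m : Fin k → ℕ) (n y : ℕ) :
    primesIn (fun i => (s (m i)).toNat) n y = 0 ↔
      ∀ i < k, Pool.Agent.W301.SS.pn (n + Pool.Agent.NH15.CT.sh s k m i) y = 0 := by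
  unfold primesIn
  rw [sum_eq_zero_iff]
  constructor
  · intro h i hi
    have := h ⟨i, hi⟩ (mem_univ _)
    unfold Pool.Agent.NH15.CT.sh Pool.Agent.W301.SS.pn
    rw [dif_pos hi]
    exact this
  · intro h i _
    have := h i i.2
    unfold Pool.Agent.NH15.CT.sh Pool.Agent.W301.SS.pn at this
    rw [dif_pos i.2] at this
    exact this

lemma general (p B C U : ℕ) (ε : ℝ) (hε : 0 < ε) (hε1 : ε ≤ 1 / 4) : ∃ K κ : ℕ, ∀ N : ℕ, K ≤ N →
    ∀ (x : ℕ) (s : ℕ → ℤ), (∀ m ∈ Icc 1 x, |s m| ≤ B * N) →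
    (energy p x s : ℝ) * N ≤ Real.log N ^ C * (x : ℝ) ^ (2 * p) →
    ∀ A : Finset ℕ, A ⊆ Icc 1 N → ∀ k : ℕ, (k : ℝ) ≤ Real.log N ^ C →
      numT x k (fun m => (∀ i, 0 < s (m i) ∧ s (m i) ≤ N) ∧
        ¬ Good ε C κ K N A (fun i => (s (m i)).toNat)) ≤ (x : ℝ) ^ k / Real.log N ^ U := by
  classical
  obtain ⟨K, κ, hK⟩ := Pool.Agent.NH15.CT.final p B C U ε hε hε1
  obtain ⟨N₀, h0⟩ := Filter.eventually_atTop.1 (hK.and (Pool.Agent.W301.SS.ev_L 1))
  refine ⟨max K N₀, κ, fun N hN x s hs hE A hA k hk => ?_⟩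
  obtain ⟨h1, h2⟩ := h0 N ((le_max_right _ _).trans hN)
  refine numT_le fun S hS1 hS2 => h1 x s hs hE A hA k hk S hS1 ?_
  intro m hm
  obtain ⟨h4, h5⟩ := hS2 m hm
  refine ⟨h4, fun h7 => h5 ?_⟩
  have hmax : ∀ y : ℕ, Real.log N ^ (max K N₀) ≤ y → Real.log N ^ K ≤ y := fun y hy =>
    (pow_le_pow_right₀ h2 (le_max_left _ _)).trans hy
  obtain ⟨g1, g2⟩ := h7
  refine ⟨fun y hy1 hy2 => ?_, fun hκ => ?_⟩
  · obtain ⟨g3, g4⟩ := g1 y (hmax y hy1) hy2
    constructor
    · refine le_trans (numIn_le ?_) g3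
      intro n _ hn
      rw [tot_eq] at hn
      exact hn
    · refine le_trans (numIn_le ?_) g4
      intro n _ hn
      exact (zero_iff k s m n y).1 hn
  · refine le_trans (numIn_le ?_) (g2 hκ)
    intro n _ hn h
    refine hn fun y hy1 hy2 => ?_
    rw [tot_eq]
    exact h y (hmax y hy1) hy2

/-- Let `B`, `C`, `U` and `0 < ε ≤ 1 / 4` be fixed.

* For every `p` there are `K` and `κ` such that for all `N ≥ K` the following holds. Let `s 1, ..., s x` be an
  arbitrary family of integers in `[-B N, B N]` with an additive energy of order `p` of at most `log ^ C N`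
  times the minimal possible size `x ^ (2 p) / N`, let `A` be an arbitrary set of integers in `[1, N]` and
  let `k ≤ log ^ C N`. Then all the `k`-tuples `(b 1, ..., b k) = (s (m 1), ..., s (m k))` of members of the family
  which are in `[1, N]`, with at most `x ^ k / log ^ U N` exceptions among the `x ^ k` tuples, are good for `A`: for
  every integer `y` with `(log N) ^ K ≤ y ≤ N` the number of the primes in the `k` intervals
  `(n + b i, n + b i + y]` is between `(1 - ε) k y / log N` and `(1 + ε) k y / log N` for all but at most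
  `4 exp (- ε² k / 100) |A| + N / log ^ C N` of the `n ∈ A`, and it is `0` for at most
  `(3 / 4 + ε) ^ k |A| + N / log ^ C N` of them; if `k ≥ κ log log N`, then the approximation holds for all `y` at once
  for all but at most `N / log ^ C N` of the `n ∈ A`.
* In particular this holds for the members `b = c + f m`, `m ≤ x`, where `f` is a fixed nonconstant
  polynomial with integer coefficients, of degree `d`, `N / log ^ C N ≤ x ^ d ≤ B N` and `|c| ≤ B N`. -/
theorem result (B C U : ℕ) (ε : ℝ) (hε : 0 < ε) (hε1 : ε ≤ 1 / 4) :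
    (∀ p : ℕ, ∃ K κ : ℕ, ∀ N : ℕ, K ≤ N → ∀ (x : ℕ) (s : ℕ → ℤ), (∀ m ∈ Icc 1 x, |s m| ≤ B * N) →
      (energy p x s : ℝ) * N ≤ Real.log N ^ C * (x : ℝ) ^ (2 * p) →
      ∀ A : Finset ℕ, A ⊆ Icc 1 N → ∀ k : ℕ, (k : ℝ) ≤ Real.log N ^ C →
        numT x k (fun m => (∀ i, 0 < s (m i) ∧ s (m i) ≤ N) ∧
          ¬ Good ε C κ K N A (fun i => (s (m i)).toNat)) ≤ (x : ℝ) ^ k / Real.log N ^ U) ∧
    (∀ f : Polynomial ℤ, 1 ≤ f.natDegree → ∃ K κ : ℕ, ∀ N : ℕ, K ≤ N → ∀ x : ℕ,
      x ^ f.natDegree ≤ B * N → (N : ℝ) ≤ Real.log N ^ C * (x : ℝ) ^ f.natDegree → ∀ c : ℤ, |c| ≤ B * N →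
      ∀ A : Finset ℕ, A ⊆ Icc 1 N → ∀ k : ℕ, (k : ℝ) ≤ Real.log N ^ C →
        numT x k (fun m => (∀ i, 0 < c + f.eval (m i : ℤ) ∧ c + f.eval (m i : ℤ) ≤ N) ∧
          ¬ Good ε C κ K N A (fun i => (c + f.eval (m i : ℤ)).toNat)) ≤ (x : ℝ) ^ k / Real.log N ^ U) := by
  classical
  refine ⟨fun p => general p B C U ε hε hε1, fun f hd => ?_⟩
  obtain ⟨p, B', hB', N1, h1⟩ := Pool.Agent.TH823.Fam.poly_family f hd B C
  obtain ⟨K, κ, h2⟩ := general p B' (C + 1) U ε hε hε1
  obtain ⟨N₀, h0⟩ := Filter.eventually_atTop.1 (Pool.Agent.W301.SS.ev_L 1)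
  refine ⟨K + N1 + N₀, κ, fun N hN x hx1 hx2 c hc A hA k hk => ?_⟩
  have h5 := h0 N (by omega)
  obtain ⟨h3, h4⟩ := h1 N (by omega) x hx1 hx2 c hc
  have hk2 : (k : ℝ) ≤ Real.log N ^ (C + 1) := hk.trans (pow_le_pow_right₀ h5 (by omega))
  refine le_trans ?_ (h2 N (by omega) x (fun m => c + f.eval (m : ℤ)) h3 h4 A hA k hk2)
  apply numT_mono
  rintro m _ ⟨h6, h7⟩
  refine ⟨h6, fun h9 => h7 ?_⟩
  have hC : (N : ℝ) / Real.log N ^ (C + 1) ≤ N / Real.log N ^ C := by
    apply div_le_div_of_nonneg_left (Nat.cast_nonneg _) (by positivity)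
    exact pow_le_pow_right₀ h5 (by omega)
  have hK : ∀ y : ℕ, Real.log N ^ (K + N1 + N₀) ≤ y → Real.log N ^ K ≤ y := fun y hy =>
    (pow_le_pow_right₀ h5 (by omega)).trans hy
  obtain ⟨g1, g2⟩ := h9
  refine ⟨fun y hy1 hy2 => ?_, fun hκ => ?_⟩
  · obtain ⟨g3, g4⟩ := g1 y (hK y hy1) hy2
    exact ⟨g3.trans (by linarith), g4.trans (by linarith)⟩
  · refine le_trans ?_ ((g2 hκ).trans hC)
    apply numIn_mono
    intro n _ hn h
    exact hn fun y hy1 hy2 => h y (hK y hy1) hy2

end Pool.Agent.Results.MP_711652_nt.FewGenericTranslates
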