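import Pool.Agent.NH15.AC.A3

/-!
# Sparse sets `R` for which the gaps of `primes + R` are at most a power of the logarithm

The problem asks whether every interval `(n, n + (log n) ^ A]` contains a prime. Here the set of the primes is replaced by
the set of the sums `p + r` with `r` in a very sparse set `R`: for every `0 ≤ β ≤ 1` there is a set `R` with
`O((log x) ^ (2 - β))` elements up to `x` such that every interval `(n, n + (log n) ^ β]` with large `n` contains such a
sum. In particular there is a set with `O(log x)` elements up to `x` for which the intervals have the length `log n`.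

From the starting files: Hoheisel's theorem (`Pool.Agent.H295R3.D.hoheisel`) and Selberg's sieve for pairs in short
intervals. New (`Pool.Agent.NH15.AC`, `Pool.Agent.NH15.UT.U1`): the rest.
-/

set_option autoImplicit false

namespace Pool.Agent.Results.MP_711652_nt.ThinComplementsShortIntervals

open Finset Filter

/-- The number of the elements of `R` which are at most `x`. -/
noncomputable def count (R : Set ℕ) (x : ℕ) : ℝ := ((R ∩ Set.Iic x).ncard : ℝ)

/-- The number of the elements `r < n` of `R` for which there is a prime `p` with `n < p + r ≤ n + (log n) ^ β`. -/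
noncomputable def reps (R : Set ℕ) (β : ℝ) (n : ℕ) : ℝ :=
  ({r | r ∈ R ∧ r < n ∧ ∃ p : ℕ, p.Prime ∧ n < p + r ∧ ((p + r : ℕ) : ℝ) ≤ n + Real.log n ^ β}.ncard : ℝ)

theorem result : ∀ β : ℝ, 0 ≤ β → β ≤ 1 → ∃ R : Set ℕ, ∃ C : ℝ, 0 < C ∧
    (∀ x : ℕ, 2 ≤ x → count R x ≤ C * Real.log x ^ (2 - β)) ∧
    ∀ᶠ n : ℕ in atTop, Real.log n ≤ reps R β n := by
  intro β hβ hβ1
  obtain ⟨R, C, hC, h1, h2⟩ := NH15.AC.complement β hβ hβ1
  refine ⟨R, C, hC, fun x hx => h1 x hx, ?_⟩
  filter_upwards [h2, eventually_ge_atTop 3] with n hn hn3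
  refine hn.trans ?_
  unfold reps
  apply Nat.cast_le.2
  apply Set.ncard_le_ncard
  · rintro r ⟨hr, hrn, hh⟩
    refine ⟨hr, hrn, ?_⟩
    unfold NH15.UT.HT W301.SS.pn at hh
    rw [card_pos] at hh
    obtain ⟨p, hp⟩ := hh
    rw [mem_filter, mem_Ioc] at hp
    refine ⟨p, hp.2, by omega, ?_⟩
    have hL : 0 ≤ Real.log n := Real.log_nonneg (by exact_mod_cast (by omega : 1 ≤ n))
    have h3 : ((p + r : ℕ) : ℝ) ≤ ((n + NH15.AC.yy β n : ℕ) : ℝ) := by exact_mod_cast (by omega)
    refine h3.trans ?_
    push_cast
    unfold NH15.AC.yy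
    have := Nat.floor_le (Real.rpow_nonneg hL β)
    linarith
  · apply Set.Finite.subset (Set.finite_Iio n)
    rintro r ⟨-, hr, -⟩
    exact hr

end Pool.Agent.Results.MP_711652_nt.ThinComplementsShortIntervals
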